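import Pool.Agent.V5helper19.QC.Stm2

/-!
# Project QC, job POLY: the q-Catalan number as a product
-/

set_option autoImplicit false
open Finset

namespace V5helper43.QC

open V5helper19.QC
open Pool.Agent.Results.MP_532027_co.LeastTNot75

theorem one_sub_ne {w : ℂ} (hw : ‖w‖ < 1) (i : ℕ) : (1 : ℂ) - w ^ (i + 1) ≠ 0 := by
  intro h
  have h1 : ‖w ^ (i + 1)‖ = 1 := by
    rw [← sub_eq_zero.1 h, norm_one]
  rw [norm_pow] at h1
  have h2 : ‖w‖ ^ (i + 1) < 1 := pow_lt_one₀ (norm_nonneg _) hw (Nat.succ_ne_zero i)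
  linarith

theorem t_POLY : S_POLY := by
  intro n w hn hw
  obtain ⟨m, rfl⟩ : ∃ m, n = m + 1 := ⟨n - 1, by omega⟩
  have hU : ∀ i, Polynomial.aeval w (U i) = 1 - w ^ (i + 1) := by
    intro i
    simp [U]
  have h := congrArg (Polynomial.aeval w) (prod_mul_qCat m)
  rw [map_mul, map_prod, map_prod] at h
  simp only [hU] at h
  have hne : ∏ i ∈ range m, ((1 : ℂ) - w ^ (i + 1 + 1)) ≠ 0 :=
    prod_ne_zero_iff.2 fun i _ => one_sub_ne hw (i + 1)
  have hG : GC (m + 1) w = (∏ i ∈ range m, ((1 : ℂ) - w ^ (m + 2 + i + 1))) /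
      ∏ i ∈ range m, ((1 : ℂ) - w ^ (i + 1 + 1)) := by
    unfold GC
    have h1 : Icc 2 (m + 1) = Ico 2 (m + 2) := by
      ext x
      simp only [mem_Icc, mem_Ico]
      omega
    rw [h1, prod_Ico_eq_prod_range, ← prod_div_distrib]
    have h2 : m + 2 - 2 = m := by omega
    rw [h2]
    refine prod_congr rfl fun i _ => ?_
    have h3 : m + 1 + (2 + i) = m + 2 + i + 1 := by omega
    have h4 : 2 + i = i + 1 + 1 := by omega
    rw [h3, h4]
  rw [hG, eq_div_iff hne, mul_comm]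
  exact h

end V5helper43.QC
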